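import Pool.Agent.Run7.h664.NL.Iface

/-!
# Project NL (MP_35c333_an, S04319), leaf FIN: the end of the proof
-/

set_option autoImplicit false

namespace Pool.Agent.Run7.h882.NL

open Finset Filter Topology Run7.h664.NL
open scoped commutatorElement

/-! ### The conjugated elements -/

section alg

variable {N d : ℕ} (C : Core N) (P : Fin d → Polynomial ℤ)

/-- the sequence `b` as an element of the big group -/
noncomputable def be : BG N d := ⟨fun p => bb C P p, 0⟩

/-- the shifts as a homomorphism -/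
def ShH (N d : ℕ) : Multiplicative ℤ →* BG N d where
  toFun n := ⟨fun _ => 1, n.toAdd⟩
  map_one' := rfl
  map_mul' a b := by
    apply BG.ext
    · funext p
      rw [BG.mul_u, mul_one]
    · rw [BG.mul_s]
      rfl

/-- the constants as a homomorphism -/
def coH (N d : ℕ) : (Mt N)ˣ →* BG N d where
  toFun u := ⟨fun _ => u, 0⟩
  map_one' := rfl
  map_mul' a b := by
    apply BG.ext
    · funext p
      rw [BG.mul_u]
    · rw [BG.mul_s]
      rfl

theorem z1_eq : z1 C P = (be C P)⁻¹ * ShH N d (Multiplicative.ofAdd 1) * be C P := by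
  apply BG.ext
  · funext p
    simp [z1, BG.mul_u, BG.inv_u, BG.mul_s, BG.inv_s, be, ShH]
  · simp [z1, BG.mul_s, BG.inv_s, be, ShH]

theorem z2_eq : z2 C P = (be C P)⁻¹ * coH N d (E C.Mg) * be C P := by
  apply BG.ext
  · funext p
    simp [z2, BG.mul_u, BG.inv_u, BG.mul_s, BG.inv_s, be, coH]
  · simp [z2, BG.mul_s, BG.inv_s, be, coH]

theorem conj_zpow' {G : Type*} [Group G] (x y : G) (n : ℤ) : (x⁻¹ * y * x) ^ n = x⁻¹ * y ^ n * x := by
  have h := conj_zpow (i := n) (a := x⁻¹) (b := y)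
  rwa [inv_inv] at h

theorem z12_eq (a b : ℤ) : z1 C P ^ a * z2 C P ^ b =
    (be C P)⁻¹ * (ShH N d (Multiplicative.ofAdd a) * coH N d (E C.Mg ^ b)) * be C P := by
  have h1 : (ShH N d (Multiplicative.ofAdd 1)) ^ a = ShH N d (Multiplicative.ofAdd a) := by
    have h2 : (Multiplicative.ofAdd (1 : ℤ)) ^ a = Multiplicative.ofAdd a := by
      rw [← ofAdd_zsmul, smul_eq_mul, mul_one]
    rw [← h2]
    exact (map_zpow (ShH N d) _ a).symm
  have h3 : (coH N d (E C.Mg)) ^ b = coH N d (E C.Mg ^ b) := (map_zpow (coH N d) _ b).symm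
  rw [z1_eq, z2_eq, conj_zpow', conj_zpow', h1, h3]
  group

theorem z12_u (a b : ℤ) (p : ℤ × Fin d) : (z1 C P ^ a * z2 C P ^ b).u p =
    (bb C P p)⁻¹ * E C.Mg ^ b * bb C P (p.1 + a, p.2) := by
  rw [z12_eq]
  simp [BG.mul_u, BG.inv_u, BG.mul_s, BG.inv_s, be, ShH, coH]

theorem z12_s (a b : ℤ) : (z1 C P ^ a * z2 C P ^ b).s = a := by
  rw [z12_eq]
  simp [BG.mul_s, BG.inv_s, be, ShH, coH]

end alg

/-! ### The omega limit set -/

section om

variable {G : Type*} [Group G] [TopologicalSpace G] [IsTopologicalGroup G]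

/-- the elements `z₁ ^ a z₂ ^ b l` with `a ≥ n` -/
def om (Λ : Subgroup G) (z₁ z₂ : G) (n : ℕ) : Set G :=
  {y | ∃ a : ℤ, (n : ℤ) ≤ a ∧ ∃ b : ℤ, ∃ l ∈ Λ, y = z₁ ^ a * z₂ ^ b * l}

omit [TopologicalSpace G] [IsTopologicalGroup G] in
theorem om_anti (Λ : Subgroup G) (z₁ z₂ : G) : Antitone (om Λ z₁ z₂) := by
  intro m n h y hy
  obtain ⟨a, ha, b, l, hl, rfl⟩ := hy
  exact ⟨a, le_trans (by exact_mod_cast h) ha, b, l, hl, rfl⟩

theorem om_univ (Λ : Subgroup G) (K : Set G) (hK : IsCompact K)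
    (hKΛ : ∀ g : G, ∃ a ∈ K, ∃ l ∈ Λ, g = a * l) (z₁ z₂ : G) (hc : Commute z₁ z₂)
    (hM : ∀ M : Set G, M.Nonempty → Inv z₁ z₂ Λ M → M = Set.univ) (n : ℕ) :
    closure (om Λ z₁ z₂ n) = Set.univ := by
  have key : (⋂ n : ℕ, closure (om Λ z₁ z₂ n)) = Set.univ := by
    apply hM
    · have h1 : (K ∩ ⋂ n : ℕ, closure (om Λ z₁ z₂ n)).Nonempty := by
        apply hK.inter_iInter_nonempty _ (fun _ => isClosed_closure)
        intro t
        obtain ⟨m, hm⟩ : ∃ m : ℕ, ∀ i ∈ t, i ≤ m := ⟨t.sup id, fun i hi => Finset.le_sup (f := id) hi⟩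
        obtain ⟨a, ha, l, hl, e⟩ := hKΛ (z₁ ^ (m : ℤ) * z₂ ^ (0 : ℤ))
        refine ⟨a, ha, ?_⟩
        rw [Set.mem_iInter₂]
        intro i hi
        apply closure_mono (om_anti Λ z₁ z₂ (hm i hi))
        apply subset_closure
        refine ⟨m, le_rfl, 0, l⁻¹, Λ.inv_mem hl, ?_⟩
        rw [e]
        group
      exact h1.mono Set.inter_subset_right
    · refine ⟨isClosed_iInter fun _ => isClosed_closure, ?_, ?_, ?_⟩
      · intro m hm q hq
        rw [Set.mem_iInter] at hm ⊢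
        intro n
        refine map_mem_closure (f := fun x => x * q) (continuous_mul_const q) (hm n) ?_
        rintro y ⟨a, ha, b, l, hl, rfl⟩
        exact ⟨a, ha, b, l * q, Λ.mul_mem hl hq, by group⟩
      · intro m hm
        rw [Set.mem_iInter] at hm
        constructor
        · rw [Set.mem_iInter]
          intro n
          refine map_mem_closure (continuous_const_mul z₁) (hm n) ?_
          rintro y ⟨a, ha, b, l, hl, rfl⟩
          refine ⟨a + 1, by omega, b, l, hl, ?_⟩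
          rw [zpow_add, zpow_one, (Commute.refl z₁).zpow_left a |>.eq]
          group
        · rw [Set.mem_iInter]
          intro n
          refine map_mem_closure (continuous_const_mul z₁⁻¹) (hm (n + 1)) ?_
          rintro y ⟨a, ha, b, l, hl, rfl⟩
          refine ⟨a - 1, by push_cast at ha; omega, b, l, hl, ?_⟩
          group
      · intro m hm
        rw [Set.mem_iInter] at hm
        constructor
        · rw [Set.mem_iInter]
          intro n
          refine map_mem_closure (continuous_const_mul z₂) (hm n) ?_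
          rintro y ⟨a, ha, b, l, hl, rfl⟩
          refine ⟨a, ha, b + 1, l, hl, ?_⟩
          have h1 : z₂ * z₁ ^ a = z₁ ^ a * z₂ := ((hc.zpow_left a).eq).symm
          rw [← mul_assoc, ← mul_assoc, h1, zpow_add, zpow_one]
          group
        · rw [Set.mem_iInter]
          intro n
          refine map_mem_closure (continuous_const_mul z₂⁻¹) (hm n) ?_
          rintro y ⟨a, ha, b, l, hl, rfl⟩
          refine ⟨a, ha, b - 1, l, hl, ?_⟩
          have h1 : z₂⁻¹ * z₁ ^ a = z₁ ^ a * z₂⁻¹ := (((hc.zpow_left a).inv_right).eq).symm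
          rw [← mul_assoc, ← mul_assoc, h1, zpow_sub, zpow_one]
          group
  have h2 : (⋂ n : ℕ, closure (om Λ z₁ z₂ n)) ⊆ closure (om Λ z₁ z₂ n) := Set.iInter_subset _ n
  rw [key] at h2
  exact Set.univ_subset_iff.1 h2

end om

/-! ### The leaf -/

theorem fin : S_SHF → S_ABM → S_UNI → S_F4 → S_G0 → S_CL → S_GEN → S_ADD → S_GP1 → S_QR2 → S_GP2 →
    S_FIN := by
  intro shf abm uni f4 g0 cl gen add gp1 qr2 gp2 hhp ggm nil zz cpt clo chi gp
  intro N C H X _ _ _ _ _ x0 D d P hP k hk j hj U hU hUn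
  classical
  -- the family with the polynomial `0`
  let P' : Fin (d + 1) → Polynomial ℤ := Fin.cons 0 P
  have hP' : ∀ i, (P' i).eval 0 = 0 := by
    intro i
    refine Fin.cases ?_ (fun i => ?_) i
    · simp [P']
    · simpa [P'] using hP i
  obtain ⟨M, hM1, hM⟩ : ∃ M : ℕ, 1 ≤ M ∧ ∀ i, (P' i).natDegree ≤ M :=
    ⟨1 + ∑ i, (P' i).natDegree, by omega, fun i => by
      have := Finset.single_le_sum (f := fun i => (P' i).natDegree) (fun i _ => Nat.zero_le _)
        (Finset.mem_univ i)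
      omega⟩
  obtain ⟨hk1, -, -, -, -⟩ := hhp N (d + 1) M C P' hM1 hM
  have hggm := ggm hhp N (d + 1) C P'
  obtain ⟨h1, h2, hcomm, hgen⟩ := zz abm hhp shf f4 g0 ggm N (d + 1) C P'
  obtain ⟨K, hK, hKL⟩ := cpt hhp abm ggm cl gen N (d + 1) C P' H X x0 D k hk
  have hclo := clo hhp ggm N (d + 1) C P' H X x0 D k
  have hnil : Group.IsNilpotent (GG C P') := nil hhp ggm uni N (d + 1) C P'
  set Z1 : GG C P' := ⟨z1 C P', h1⟩ with hZ1
  set Z2 : GG C P' := ⟨z2 C P', h2⟩ with hZ2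
  have hcomm' : Commute Z1 Z2 := Subtype.ext hcomm
  have hchi : ∀ χ : GG C P' →* Circle, Continuous χ →
      (∀ l ∈ Lam C P' (H := H) x0 k, χ l = 1) → χ Z1 = 1 → χ Z2 = 1 → χ = 1 := by
    intro χ hχ hl e1 e2
    refine chi hhp ggm add g0 f4 abm shf gen N (d + 1) C P' H X x0 D k hk χ hχ hl ?_ ?_
    · intro g hg
      rw [show g = Z1 from Subtype.ext hg]
      exact e1
    · intro g hg
      rw [show g = Z2 from Subtype.ext hg]
      exact e2
  have hmin := gp gp1 gp2 qr2 (GG C P') (Lam C P' (H := H) x0 k) hclo K hK hKL Z1 Z2 hcomm' hgen hchi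
  have huniv := om_univ (Lam C P' (H := H) x0 k) K hK hKL Z1 Z2 hcomm' hmin (k + j + 1)
  -- the elements act on `X`
  have hmem : ∀ (g : GG C P') (p : ℤ × Fin (d + 1)), (g : BG N (d + 1)).u p ∈ H := by
    intro g p
    obtain ⟨F, hF, m, hm⟩ := (hggm g).1 g.2
    rw [hm]
    exact H.mul_mem (D.mem _ (hk1 F hF p)) (H.zpow_mem D.memc m)
  -- the open set
  let O : Set (GG C P') := {x | (∀ i : Fin (d + 1), (⟨_, hmem x (0, i)⟩ : H) • x0 ∈ U) ∧
    (k : ℤ) ∣ (x : BG N (d + 1)).s - j}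
  have hO : IsOpen O := by
    refine IsOpen.inter ?_ ?_
    · have e : {x : GG C P' | ∀ i : Fin (d + 1), (⟨_, hmem x (0, i)⟩ : H) • x0 ∈ U} =
          ⋂ i : Fin (d + 1), {x : GG C P' | (⟨_, hmem x (0, i)⟩ : H) • x0 ∈ U} := by
        ext x
        simp
      change IsOpen {x : GG C P' | ∀ i : Fin (d + 1), (⟨_, hmem x (0, i)⟩ : H) • x0 ∈ U}
      rw [e]
      refine isOpen_iInter_of_finite fun i => ?_
      have hc : Continuous fun x : GG C P' => (⟨_, hmem x (0, i)⟩ : H) • x0 := by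
        refine Continuous.smul ?_ continuous_const
        exact Continuous.subtype_mk ((BG.continuous_u (0, i)).comp continuous_subtype_val) _
      exact hU.preimage hc
    · have hc : Continuous fun x : GG C P' => (x : BG N (d + 1)).s :=
        BG.continuous_s.comp continuous_subtype_val
      exact (isOpen_discrete {n : ℤ | (k : ℤ) ∣ n - j}).preimage hc
  have hOn : O.Nonempty := by
    obtain ⟨y, hy⟩ := hUn
    obtain ⟨R, hR⟩ := D.bdd
    obtain ⟨ξ, hξ, -, e⟩ := hR y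
    have hA : Af C P' ξ 0 ∈ hh C P' := subset_lieSp _ ⟨ξ, hξ, 0, Or.inl rfl⟩
    have hx : (⟨fun p => E (Af C P' ξ 0 p), j⟩ : BG N (d + 1)) ∈ GG C P' :=
      (hggm _).2 ⟨_, hA, 0, fun p => by rw [zpow_zero, mul_one]⟩
    refine ⟨⟨_, hx⟩, ?_, ?_⟩
    · intro i
      have e1 : Af C P' ξ 0 (0, i) = ξ := by
        have e2 : (P' i).eval ((0 : ℤ) + 0) = 0 := by rw [add_zero]; exact hP' i
        simp only [Af, e2, neg_zero, zpow_zero, Units.val_one, one_mul, mul_one]
      have e3 : (⟨_, hmem ⟨_, hx⟩ (0, i)⟩ : H) = ⟨E ξ, D.mem ξ hξ⟩ := by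
        apply Subtype.ext
        change E (Af C P' ξ 0 (0, i)) = E ξ
        rw [e1]
      rw [e3, e]
      exact hy
    · change (k : ℤ) ∣ (j : ℤ) - j
      rw [sub_self]
      exact dvd_zero _
  obtain ⟨x, hx⟩ := hOn
  have hxc : x ∈ closure (om (Lam C P' (H := H) x0 k) Z1 Z2 (k + j + 1)) := by
    rw [huniv]; trivial
  obtain ⟨y, hyO, a, ha, b, l, hl, rfl⟩ := mem_closure_iff.1 hxc O hO hx
  obtain ⟨hy1, hy2⟩ := hyO
  obtain ⟨hl1, hl2⟩ := hl
  -- the shift
  have hs : ((Z1 ^ a * Z2 ^ b * l : GG C P') : BG N (d + 1)).s = a + (l : BG N (d + 1)).s := by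
    rw [Subgroup.coe_mul, BG.mul_s, Subgroup.coe_mul, Subgroup.coe_zpow, Subgroup.coe_zpow]
    rw [show ((Z1 : GG C P') : BG N (d + 1)) = z1 C P' from rfl,
      show ((Z2 : GG C P') : BG N (d + 1)) = z2 C P' from rfl, z12_s]
  rw [hs] at hy2
  have hka : (k : ℤ) ∣ a - j := by
    have := dvd_sub hy2 hl2
    rwa [show a + (l : BG N (d + 1)).s - j - (l : BG N (d + 1)).s = a - j by ring] at this
  obtain ⟨q, hq⟩ := hka
  have hkpos : (0 : ℤ) < k := by exact_mod_cast hk
  have hqpos : 0 < q := by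
    have h3 : 0 < (k : ℤ) * q := by
      rw [← hq]
      push_cast at ha
      omega
    exact (mul_pos_iff_of_pos_left hkpos).1 h3
  obtain ⟨n, rfl⟩ : ∃ n : ℕ, q = n := ⟨q.toNat, by omega⟩
  have hn : 0 < n := by exact_mod_cast hqpos
  have haq : a = k * n + j := by linarith
  -- the action
  have hfixz : ∀ m : ℤ, (⟨E C.Mc, D.memc⟩ : H) ^ m • x0 = x0 := by
    intro m
    have h3 : (⟨E C.Mc, D.memc⟩ : H) ∈ MulAction.stabilizer H x0 := D.fix
    exact (MulAction.stabilizer H x0).zpow_mem h3 m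
  have hact : ∀ i : Fin (d + 1), (⟨E C.Mg, D.memg⟩ : H) ^ (b + (P' i).eval a) • x0 ∈ U := by
    intro i
    have h3 := hy1 i
    obtain ⟨w, hw, hwe⟩ := hl1 (0 + a, i)
    have e1 : (⟨_, hmem (Z1 ^ a * Z2 ^ b * l) (0, i)⟩ : H) =
        (⟨E C.Mg, D.memg⟩ : H) ^ (b + (P' i).eval a) * (⟨E C.Mc, D.memc⟩ : H) ^ (-((P' i).eval a))
          * w := by
      apply Subtype.ext
      change ((Z1 ^ a * Z2 ^ b * l : GG C P') : BG N (d + 1)).u (0, i) =
        E C.Mg ^ (b + (P' i).eval a) * E C.Mc ^ (-((P' i).eval a)) * w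
      rw [Subgroup.coe_mul, BG.mul_u, Subgroup.coe_mul, Subgroup.coe_zpow, Subgroup.coe_zpow]
      rw [show ((Z1 : GG C P') : BG N (d + 1)) = z1 C P' from rfl,
        show ((Z2 : GG C P') : BG N (d + 1)) = z2 C P' from rfl, z12_s, z12_u]
      have hw2 : (w : (Mt N)ˣ) = (l : BG N (d + 1)).u (0 + a, i) := hwe
      rw [hw2]
      have hb0 : bb C P' (0, i) = 1 := by
        simp only [bb, hP' i, neg_zero, zpow_zero, mul_one]
      have hba : bb C P' (0 + a, i) = E C.Mg ^ ((P' i).eval a) * E C.Mc ^ (-((P' i).eval a)) := by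
        simp only [bb, zero_add]
      rw [hb0, hba, zpow_add, inv_one, one_mul, mul_assoc, mul_assoc, mul_assoc, mul_assoc]
    rw [e1, mul_smul, mul_smul] at h3
    have hw1 : w • x0 = x0 := hw
    rwa [hw1, hfixz] at h3
  refine ⟨n, hn, (⟨E C.Mg, D.memg⟩ : H) ^ b • x0, ?_, ?_⟩
  · have := hact 0
    simpa [P'] using this
  · intro i
    have := hact i.succ
    rw [show P' i.succ = P i from rfl, haq, add_comm, zpow_add, mul_smul] at this
    exact this

end Pool.Agent.Run7.h882.NL
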